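import Pool.Agent.Helper67.Cube9.U04
import Pool.Agent.Helper67.Cube9.U05
import Pool.Agent.Helper67.Cube9.U06
import Pool.Agent.Helper67.Cube9.U07
import Pool.Agent.Helper67.Cube9.ObjV
import Pool.Agent.Helper67.Cube8.Exc

/-!
# The objectives for the dimensions 7, ..., 12, part 1
-/

set_option autoImplicit false

namespace Helper67.Cube18.ObjV

open Helper67.Cube18

theorem pd_04 : ∀ e ∈ Helper67.Cube9.U04.D, e.pd ≤ 79 := pd_of_all (by decide +kernel)

theorem loC7_04 : LO MC7 lpC7 [] Helper67.Cube9.U04.D :=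
  LO.of_fastC hmV okPC7 (by norm_num) (by decide +kernel)

theorem loC8_04 : LO MC8 lpC8 [] Helper67.Cube9.U04.D :=
  LO.of_fastC hmV okPC8 (by norm_num) (by decide +kernel)

theorem loC9_04 : LO MC9 lpC9 [] Helper67.Cube9.U04.D :=
  LO.of_fastC hmV okPC9 (by norm_num) (by decide +kernel)

theorem loC10_04 : LO MC10 lpC10 [] Helper67.Cube9.U04.D :=
  LO.of_fastC hmV okPC10 (by norm_num) (by decide +kernel)

theorem loC11_04 : LO MC11 lpC11 [] Helper67.Cube9.U04.D :=
  LO.of_fastC hmV okPC11 (by norm_num) (by decide +kernel)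

theorem loC12_04 : LO MC12 lpC12 [] Helper67.Cube9.U04.D :=
  LO.of_fastC hmV okPC12 (by norm_num) (by decide +kernel)

theorem loD7_04 : LZX ecV MD7 offV lpD7 lnD7 Helper67.Cube9.U04.D :=
  LZX.of_fast hmV okPD7 okND7 (by norm_num) (by decide +kernel)

theorem loD8_04 : LZX ecV MD8 offV lpD8 lnD8 Helper67.Cube9.U04.D :=
  LZX.of_fast hmV okPD8 okND8 (by norm_num) (by decide +kernel)

theorem loD9_04 : LZX ecV MD9 offV lpD9 lnD9 Helper67.Cube9.U04.D :=
  LZX.of_fast hmV okPD9 okND9 (by norm_num) (by decide +kernel)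

theorem loD10_04 : LZX ecV MD10 offV lpD10 lnD10 Helper67.Cube9.U04.D :=
  LZX.of_fast hmV okPD10 okND10 (by norm_num) (by decide +kernel)

theorem loD11_04 : LZX ecV MD11 offV lpD11 lnD11 Helper67.Cube9.U04.D :=
  LZX.of_fast hmV okPD11 okND11 (by norm_num) (by decide +kernel)

theorem loD12_04 : LZX ecV MD12 offV lpD12 lnD12 Helper67.Cube9.U04.D :=
  LZX.of_fast hmV okPD12 okND12 (by norm_num) (by decide +kernel)

theorem pd_05 : ∀ e ∈ Helper67.Cube9.U05.D, e.pd ≤ 79 := pd_of_all (by decide +kernel)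

theorem loC7_05 : LO MC7 lpC7 [] Helper67.Cube9.U05.D :=
  LO.of_fastC hmV okPC7 (by norm_num) (by decide +kernel)

theorem loC8_05 : LO MC8 lpC8 [] Helper67.Cube9.U05.D :=
  LO.of_fastC hmV okPC8 (by norm_num) (by decide +kernel)

theorem loC9_05 : LO MC9 lpC9 [] Helper67.Cube9.U05.D :=
  LO.of_fastC hmV okPC9 (by norm_num) (by decide +kernel)

theorem loC10_05 : LO MC10 lpC10 [] Helper67.Cube9.U05.D :=
  LO.of_fastC hmV okPC10 (by norm_num) (by decide +kernel)

theorem loC11_05 : LO MC11 lpC11 [] Helper67.Cube9.U05.D :=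
  LO.of_fastC hmV okPC11 (by norm_num) (by decide +kernel)

theorem loC12_05 : LO MC12 lpC12 [] Helper67.Cube9.U05.D :=
  LO.of_fastC hmV okPC12 (by norm_num) (by decide +kernel)

theorem loD7_05 : LZX ecV MD7 offV lpD7 lnD7 Helper67.Cube9.U05.D :=
  LZX.of_fast hmV okPD7 okND7 (by norm_num) (by decide +kernel)

theorem loD8_05 : LZX ecV MD8 offV lpD8 lnD8 Helper67.Cube9.U05.D :=
  LZX.of_fast hmV okPD8 okND8 (by norm_num) (by decide +kernel)

theorem loD9_05 : LZX ecV MD9 offV lpD9 lnD9 Helper67.Cube9.U05.D :=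
  LZX.of_fast hmV okPD9 okND9 (by norm_num) (by decide +kernel)

theorem loD10_05 : LZX ecV MD10 offV lpD10 lnD10 Helper67.Cube9.U05.D :=
  LZX.of_fast hmV okPD10 okND10 (by norm_num) (by decide +kernel)

theorem loD11_05 : LZX ecV MD11 offV lpD11 lnD11 Helper67.Cube9.U05.D :=
  LZX.of_fast hmV okPD11 okND11 (by norm_num) (by decide +kernel)

theorem loD12_05 : LZX ecV MD12 offV lpD12 lnD12 Helper67.Cube9.U05.D :=
  LZX.of_fast hmV okPD12 okND12 (by norm_num) (by decide +kernel)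

theorem pd_06 : ∀ e ∈ Helper67.Cube9.U06.D, e.pd ≤ 79 := pd_of_all (by decide +kernel)

theorem loC7_06 : LO MC7 lpC7 [] Helper67.Cube9.U06.D :=
  LO.of_fastC hmV okPC7 (by norm_num) (by decide +kernel)

theorem loC8_06 : LO MC8 lpC8 [] Helper67.Cube9.U06.D :=
  LO.of_fastC hmV okPC8 (by norm_num) (by decide +kernel)

theorem loC9_06 : LO MC9 lpC9 [] Helper67.Cube9.U06.D :=
  LO.of_fastC hmV okPC9 (by norm_num) (by decide +kernel)

theorem loC10_06 : LO MC10 lpC10 [] Helper67.Cube9.U06.D :=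
  LO.of_fastC hmV okPC10 (by norm_num) (by decide +kernel)

theorem loC11_06 : LO MC11 lpC11 [] Helper67.Cube9.U06.D :=
  LO.of_fastC hmV okPC11 (by norm_num) (by decide +kernel)

theorem loC12_06 : LO MC12 lpC12 [] Helper67.Cube9.U06.D :=
  LO.of_fastC hmV okPC12 (by norm_num) (by decide +kernel)

theorem loD7_06 : LZX ecV MD7 offV lpD7 lnD7 Helper67.Cube9.U06.D :=
  LZX.of_fast hmV okPD7 okND7 (by norm_num) (by decide +kernel)

theorem loD8_06 : LZX ecV MD8 offV lpD8 lnD8 Helper67.Cube9.U06.D :=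
  LZX.of_fast hmV okPD8 okND8 (by norm_num) (by decide +kernel)

theorem loD9_06 : LZX ecV MD9 offV lpD9 lnD9 Helper67.Cube9.U06.D :=
  LZX.of_fast hmV okPD9 okND9 (by norm_num) (by decide +kernel)

theorem loD10_06 : LZX ecV MD10 offV lpD10 lnD10 Helper67.Cube9.U06.D :=
  LZX.of_fast hmV okPD10 okND10 (by norm_num) (by decide +kernel)

theorem loD11_06 : LZX ecV MD11 offV lpD11 lnD11 Helper67.Cube9.U06.D :=
  LZX.of_fast hmV okPD11 okND11 (by norm_num) (by decide +kernel)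

theorem loD12_06 : LZX ecV MD12 offV lpD12 lnD12 Helper67.Cube9.U06.D :=
  LZX.of_fast hmV okPD12 okND12 (by norm_num) (by decide +kernel)

theorem pd_07 : ∀ e ∈ Helper67.Cube9.U07.D, e.pd ≤ 79 := pd_of_all (by decide +kernel)

theorem loC7_07 : LO MC7 lpC7 [] Helper67.Cube9.U07.D :=
  LO.of_fastC hmV okPC7 (by norm_num) (by decide +kernel)

theorem loC8_07 : LO MC8 lpC8 [] Helper67.Cube9.U07.D :=
  LO.of_fastC hmV okPC8 (by norm_num) (by decide +kernel)

theorem loC9_07 : LO MC9 lpC9 [] Helper67.Cube9.U07.D :=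
  LO.of_fastC hmV okPC9 (by norm_num) (by decide +kernel)

theorem loC10_07 : LO MC10 lpC10 [] Helper67.Cube9.U07.D :=
  LO.of_fastC hmV okPC10 (by norm_num) (by decide +kernel)

theorem loC11_07 : LO MC11 lpC11 [] Helper67.Cube9.U07.D :=
  LO.of_fastC hmV okPC11 (by norm_num) (by decide +kernel)

theorem loC12_07 : LO MC12 lpC12 [] Helper67.Cube9.U07.D :=
  LO.of_fastC hmV okPC12 (by norm_num) (by decide +kernel)

theorem loD7_07 : LZX ecV MD7 offV lpD7 lnD7 Helper67.Cube9.U07.D :=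
  LZX.of_fast hmV okPD7 okND7 (by norm_num) (by decide +kernel)

theorem loD8_07 : LZX ecV MD8 offV lpD8 lnD8 Helper67.Cube9.U07.D :=
  LZX.of_fast hmV okPD8 okND8 (by norm_num) (by decide +kernel)

theorem loD9_07 : LZX ecV MD9 offV lpD9 lnD9 Helper67.Cube9.U07.D :=
  LZX.of_fast hmV okPD9 okND9 (by norm_num) (by decide +kernel)

theorem loD10_07 : LZX ecV MD10 offV lpD10 lnD10 Helper67.Cube9.U07.D :=
  LZX.of_fast hmV okPD10 okND10 (by norm_num) (by decide +kernel)

theorem loD11_07 : LZX ecV MD11 offV lpD11 lnD11 Helper67.Cube9.U07.D :=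
  LZX.of_fast hmV okPD11 okND11 (by norm_num) (by decide +kernel)

theorem loD12_07 : LZX ecV MD12 offV lpD12 lnD12 Helper67.Cube9.U07.D :=
  LZX.of_fast hmV okPD12 okND12 (by norm_num) (by decide +kernel)

end Helper67.Cube18.ObjV
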