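import Pool.Agent.Helper67.Cube9.LoV0
import Pool.Agent.Helper67.Cube9.LoV1
import Pool.Agent.Helper67.Cube9.LoV2
import Pool.Agent.Helper67.Cube9.LoV3
import Pool.Agent.Helper63.Cube6.Lev7

/-!
# The data of level 6 for the dimensions 7, ..., 12
-/

set_option autoImplicit false

namespace Helper67.Cube18.ObjV

open Helper67.Cube Helper67.Cube18
open Helper67.Cube6 (Ent LevL)

/-- representatives of all classes of vertex simplices -/
def DD : List Ent :=
  Helper67.Cube9.U00.D ++ (Helper67.Cube9.U01.D ++ (Helper67.Cube9.U02.D ++ (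
  Helper67.Cube9.U03.D ++ (Helper67.Cube9.U04.D ++ (Helper67.Cube9.U05.D ++ (
  Helper67.Cube9.U06.D ++ (Helper67.Cube9.U07.D ++ (Helper67.Cube9.U08.D ++ (
  Helper67.Cube9.U09.D ++ (Helper67.Cube9.U10.D ++ (Helper67.Cube9.U11.D ++ (
  Helper67.Cube9.U12.D ++ (Helper67.Cube9.U13.D ++ (Helper67.Cube9.U14.D))))))))))))))

/-- set of the representatives of the list -/
def SS : ℕ :=
  maskL Helper67.Cube9.U00.O ||| (maskL Helper67.Cube9.U01.O ||| (
  maskL Helper67.Cube9.U02.O ||| (maskL Helper67.Cube9.U03.O ||| (
  maskL Helper67.Cube9.U04.O ||| (maskL Helper67.Cube9.U05.O ||| (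
  maskL Helper67.Cube9.U06.O ||| (maskL Helper67.Cube9.U07.O ||| (
  maskL Helper67.Cube9.U08.O ||| (maskL Helper67.Cube9.U09.O ||| (
  maskL Helper67.Cube9.U10.O ||| (maskL Helper67.Cube9.U11.O ||| (
  maskL Helper67.Cube9.U12.O ||| (maskL Helper67.Cube9.U13.O ||| (
  maskL Helper67.Cube9.U14.O))))))))))))))

theorem hvD : HV 7700 9 16 XV one6 evV DD :=
  Helper67.Cube9.U00.hv.append (Helper67.Cube9.U01.hv.append (Helper67.Cube9.U02.hv.append (
  Helper67.Cube9.U03.hv.append (Helper67.Cube9.U04.hv.append (Helper67.Cube9.U05.hv.append (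
  Helper67.Cube9.U06.hv.append (Helper67.Cube9.U07.hv.append (Helper67.Cube9.U08.hv.append (
  Helper67.Cube9.U09.hv.append (Helper67.Cube9.U10.hv.append (Helper67.Cube9.U11.hv.append (
  Helper67.Cube9.U12.hv.append (Helper67.Cube9.U13.hv.append (
  Helper67.Cube9.U14.hv))))))))))))))

theorem edD : ED DD :=
  Helper67.Cube9.U00.ed.append (Helper67.Cube9.U01.ed.append (Helper67.Cube9.U02.ed.append (
  Helper67.Cube9.U03.ed.append (Helper67.Cube9.U04.ed.append (Helper67.Cube9.U05.ed.append (
  Helper67.Cube9.U06.ed.append (Helper67.Cube9.U07.ed.append (Helper67.Cube9.U08.ed.append (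
  Helper67.Cube9.U09.ed.append (Helper67.Cube9.U10.ed.append (Helper67.Cube9.U11.ed.append (
  Helper67.Cube9.U12.ed.append (Helper67.Cube9.U13.ed.append (
  Helper67.Cube9.U14.ed))))))))))))))

theorem partD : Part DD SS :=
  Helper67.Cube9.U00.part.append (Helper67.Cube9.U01.part.append (
  Helper67.Cube9.U02.part.append (Helper67.Cube9.U03.part.append (
  Helper67.Cube9.U04.part.append (Helper67.Cube9.U05.part.append (
  Helper67.Cube9.U06.part.append (Helper67.Cube9.U07.part.append (
  Helper67.Cube9.U08.part.append (Helper67.Cube9.U09.part.append (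
  Helper67.Cube9.U10.part.append (Helper67.Cube9.U11.part.append (
  Helper67.Cube9.U12.part.append (Helper67.Cube9.U13.part.append (
  Helper67.Cube9.U14.part))))))))))))))

theorem fullD : Nat.beq SS (fullM 9892) = true := by decide +kernel

theorem base : Base6 7700 9 16 xV evV DD where
  hQ := by norm_num
  hg := by norm_num
  hg0 := by norm_num
  lev := levL_of_part Pool.Agent.Helper63.Cube6.lev7 partD fullD
  ed := edD
  hev := evV_le
  hv := ⟨XV, one6, hvD, orbV⟩

theorem pdD : ∀ e ∈ DD, e.pd ≤ 79 :=
  appPd pd_00  (appPd pd_01  (appPd pd_02  (appPd pd_03  (appPd pd_04  (appPd pd_05  (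
  appPd pd_06  (appPd pd_07  (appPd pd_08  (appPd pd_09  (appPd pd_10  (appPd pd_11  (
  appPd pd_12  (appPd pd_13  (pd_14))))))))))))))

theorem loC7 : LO MC7 lpC7 [] DD :=
  loC7_00.append (loC7_01.append (loC7_02.append (loC7_03.append (loC7_04.append (
  loC7_05.append (loC7_06.append (loC7_07.append (loC7_08.append (loC7_09.append (
  loC7_10.append (loC7_11.append (loC7_12.append (loC7_13.append (loC7_14))))))))))))))

theorem loC8 : LO MC8 lpC8 [] DD :=
  loC8_00.append (loC8_01.append (loC8_02.append (loC8_03.append (loC8_04.append (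
  loC8_05.append (loC8_06.append (loC8_07.append (loC8_08.append (loC8_09.append (
  loC8_10.append (loC8_11.append (loC8_12.append (loC8_13.append (loC8_14))))))))))))))

theorem loC9 : LO MC9 lpC9 [] DD :=
  loC9_00.append (loC9_01.append (loC9_02.append (loC9_03.append (loC9_04.append (
  loC9_05.append (loC9_06.append (loC9_07.append (loC9_08.append (loC9_09.append (
  loC9_10.append (loC9_11.append (loC9_12.append (loC9_13.append (loC9_14))))))))))))))

theorem loC10 : LO MC10 lpC10 [] DD :=
  loC10_00.append (loC10_01.append (loC10_02.append (loC10_03.append (loC10_04.append (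
  loC10_05.append (loC10_06.append (loC10_07.append (loC10_08.append (loC10_09.append (
  loC10_10.append (loC10_11.append (loC10_12.append (loC10_13.append (
  loC10_14))))))))))))))

theorem loC11 : LO MC11 lpC11 [] DD :=
  loC11_00.append (loC11_01.append (loC11_02.append (loC11_03.append (loC11_04.append (
  loC11_05.append (loC11_06.append (loC11_07.append (loC11_08.append (loC11_09.append (
  loC11_10.append (loC11_11.append (loC11_12.append (loC11_13.append (
  loC11_14))))))))))))))

theorem loC12 : LO MC12 lpC12 [] DD :=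
  loC12_00.append (loC12_01.append (loC12_02.append (loC12_03.append (loC12_04.append (
  loC12_05.append (loC12_06.append (loC12_07.append (loC12_08.append (loC12_09.append (
  loC12_10.append (loC12_11.append (loC12_12.append (loC12_13.append (
  loC12_14))))))))))))))

theorem loD7 : LZX ecV MD7 offV lpD7 lnD7 DD :=
  loD7_00.append (loD7_01.append (loD7_02.append (loD7_03.append (loD7_04.append (
  loD7_05.append (loD7_06.append (loD7_07.append (loD7_08.append (loD7_09.append (
  loD7_10.append (loD7_11.append (loD7_12.append (loD7_13.append (loD7_14))))))))))))))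

theorem loD8 : LZX ecV MD8 offV lpD8 lnD8 DD :=
  loD8_00.append (loD8_01.append (loD8_02.append (loD8_03.append (loD8_04.append (
  loD8_05.append (loD8_06.append (loD8_07.append (loD8_08.append (loD8_09.append (
  loD8_10.append (loD8_11.append (loD8_12.append (loD8_13.append (loD8_14))))))))))))))

theorem loD9 : LZX ecV MD9 offV lpD9 lnD9 DD :=
  loD9_00.append (loD9_01.append (loD9_02.append (loD9_03.append (loD9_04.append (
  loD9_05.append (loD9_06.append (loD9_07.append (loD9_08.append (loD9_09.append (
  loD9_10.append (loD9_11.append (loD9_12.append (loD9_13.append (loD9_14))))))))))))))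

theorem loD10 : LZX ecV MD10 offV lpD10 lnD10 DD :=
  loD10_00.append (loD10_01.append (loD10_02.append (loD10_03.append (loD10_04.append (
  loD10_05.append (loD10_06.append (loD10_07.append (loD10_08.append (loD10_09.append (
  loD10_10.append (loD10_11.append (loD10_12.append (loD10_13.append (
  loD10_14))))))))))))))

theorem loD11 : LZX ecV MD11 offV lpD11 lnD11 DD :=
  loD11_00.append (loD11_01.append (loD11_02.append (loD11_03.append (loD11_04.append (
  loD11_05.append (loD11_06.append (loD11_07.append (loD11_08.append (loD11_09.append (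
  loD11_10.append (loD11_11.append (loD11_12.append (loD11_13.append (
  loD11_14))))))))))))))

theorem loD12 : LZX ecV MD12 offV lpD12 lnD12 DD :=
  loD12_00.append (loD12_01.append (loD12_02.append (loD12_03.append (loD12_04.append (
  loD12_05.append (loD12_06.append (loD12_07.append (loD12_08.append (loD12_09.append (
  loD12_10.append (loD12_11.append (loD12_12.append (loD12_13.append (
  loD12_14))))))))))))))

end Helper67.Cube18.ObjV
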